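import Pool.Agent.Helper49.RF.Inst
import Pool.Agent.Helper80.BP.Crit3All

/-!
# From the cone to rank four data
-/

set_option autoImplicit false
set_option linter.unusedSectionVars false

namespace Pool.Agent.Helper49.RF

open Finset
open Pool.Agent.Helper28.BPack Pool.Agent.Helper61.Motz Pool.Agent.Helper38.Thick
  Pool.Agent.Helper63.HM

variable {L : Type} [Lattice L] [BoundedOrder L] [Finite L] [IsUpperModularLattice L]

open Classical in
/-- **Rank four data from a good choice in the cone.** -/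
theorem Fr.crit4 {A : Finset L} {Q o : L} {s : ℕ} [Fintype (YY A Q)] [Fintype (UU A Q o)]
    [Fintype (EE A Q)] (F : Fr A Q o s) (hB : Crit3 (A.filter (· ≤ Q))) (hG : F.cone.Good) :
    Crit4 A := by
  obtain ⟨l, X, Y, h1, h2⟩ := hG
  have mP : ∀ x, x ∈ A.filter (· ≤ Q) ↔ x ∈ A ∧ x ≤ Q := fun x => mem_filter
  have hxU : ∀ x ∈ A, x ∉ insert o (A.filter (· ≤ Q)) → x ∈ A ∧ ¬ x ≤ Q ∧ x ≠ o := by
    intro x hx hxB
    rw [mem_insert, mP] at hxB
    push Not at hxB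
    exact ⟨hx, hxB.2 hx, hxB.1⟩
  set c : L → L := fun x => if h : x ∈ A ∧ ¬ x ≤ Q ∧ x ≠ o then (X ⟨x, h⟩).1 else x with hc
  set d : L → L := fun x => if h : x ∈ A ∧ ¬ x ≤ Q ∧ x ≠ o then (Y ⟨x, h⟩).1 else x with hd
  have ec : ∀ x (h : x ∈ A ∧ ¬ x ≤ Q ∧ x ≠ o), c x = (X ⟨x, h⟩).1 := fun x h => by
    simp only [hc]
    rw [dif_pos h]
  have ed : ∀ x (h : x ∈ A ∧ ¬ x ≤ Q ∧ x ≠ o), d x = (Y ⟨x, h⟩).1 := fun x h => by
    simp only [hd]
    rw [dif_pos h]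
  -- the facts about one user
  have key : ∀ z : UU A Q o, ¬ o ≤ z.1 ⊔ (l z).1 ∧ (X z).1 ≤ (l z).1 ∧ (Y z).1 ≤ (l z).1 ∧
      (X z).1 ≠ (Y z).1 ∧ (X z).1 ⊔ (Y z).1 = (l z).1 ∧
      z.1 ⊔ (X z).1 ⊔ (Y z).1 = z.1 ⊔ (l z).1 ∧ rk (z.1 ⊔ (l z).1) = 3 := by
    intro z
    obtain ⟨k1, k2, k3, k4⟩ := h1 z
    have k5 : (X z).1 ≠ (Y z).1 := fun e => k4 (Subtype.ext e)
    have k6 : (X z).1 ⊔ (Y z).1 = (l z).1 :=
      line_of (F.at_ _ (X z).2.1) (F.at_ _ (Y z).2.1) k5 k2 k3 (l z).2.1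
    refine ⟨k1, k2, k3, k5, k6, ?_, F.rp z.2.1 z.2.2.1 (l z).2.1 (l z).2.2.1⟩
    rw [sup_assoc, k6]
  have rl : ∀ z : UU A Q o, ∀ y : YY A Q, rk (z.1 ⊔ y.1) = 2 := fun z y =>
    F.rl z.2.1 z.2.2.1 y.2.1 y.2.2
  have hBm : ∀ a, a ∈ insert o (A.filter (· ≤ Q)) → a = o ∨ (a ∈ A ∧ a ≤ Q) := by
    intro a ha
    rcases mem_insert.mp ha with k | k
    · exact Or.inl k
    · exact Or.inr ((mP a).mp k)
  have hline : ∀ z : UU A Q o, ∀ y : YY A Q, ¬ o ≤ z.1 ⊔ y.1 →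
      ∀ a ∈ insert o (A.filter (· ≤ Q)), ∀ e ∈ insert o (A.filter (· ≤ Q)), a ≠ e →
      a ≤ z.1 ⊔ y.1 → e ≤ z.1 ⊔ y.1 → False := by
    intro z y ho a ha e he hae hag heg
    rcases hBm a ha with rfl | ⟨ha1, ha2⟩
    · exact ho hag
    rcases hBm e he with rfl | ⟨he1, he2⟩
    · exact ho heg
    exact hae (F.one (rl z y) (fun h => z.2.2.1 (le_sup_left.trans h)) ha1 ha2 he1 he2 hag heg)
  have hoc : ∀ z : UU A Q o, ¬ o ≤ z.1 ⊔ (X z).1 := fun z h =>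
    (key z).1 (h.trans (sup_le_sup_left (key z).2.1 z.1))
  have hod : ∀ z : UU A Q o, ¬ o ≤ z.1 ⊔ (Y z).1 := fun z h =>
    (key z).1 (h.trans (sup_le_sup_left (key z).2.2.1 z.1))
  refine nPeel (B := insert o (A.filter (· ≤ Q))) (c' := c) (d' := d) F.at_ ?_
    (crit4_base F.at_ F.rQ F.oA F.oQ hB) ?_ ?_ ?_ ?_ ?_ ?_ ?_ ?_
  · intro a ha
    rcases hBm a ha with rfl | k
    · exact F.oA
    · exact k.1
  · intro x hx hxB
    have hz := hxU x hx hxB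
    rw [ec x hz, ed x hz]
    obtain ⟨-, -, -, -, -, k6, k7⟩ := key ⟨x, hz⟩
    exact ⟨(X ⟨x, hz⟩).2.1, (Y ⟨x, hz⟩).2.1, by rw [k6]; exact k7⟩
  · intro x hx hxB y hy hyB e
    have hz := hxU x hx hxB
    have hz' := hxU y hy hyB
    rw [ec x hz, ec y hz'] at e
    by_contra hne
    exact (h2 ⟨x, hz⟩ ⟨y, hz'⟩ (fun k => hne (congrArg Subtype.val k))).2.1 e
  · intro x hx hxB y hy hyB e
    have hz := hxU x hx hxB
    have hz' := hxU y hy hyB
    rw [ed x hz, ed y hz'] at e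
    by_contra hne
    exact (h2 ⟨x, hz⟩ ⟨y, hz'⟩ (fun k => hne (congrArg Subtype.val k))).2.2.1 e
  · intro x hx hxB y hy hyB e
    have hz := hxU x hx hxB
    have hz' := hxU y hy hyB
    rw [ec x hz, ed y hz'] at e
    by_cases hne : x = y
    · subst hne
      obtain ⟨-, -, -, k4, -⟩ := key ⟨x, hz⟩
      exact k4 (F.one (rl ⟨x, hz⟩ (X ⟨x, hz⟩)) (fun h => hz.2.1 (le_sup_left.trans h))
        (X ⟨x, hz⟩).2.1 (X ⟨x, hz⟩).2.2 (Y ⟨x, hz⟩).2.1 (Y ⟨x, hz⟩).2.2 le_sup_right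
        (e ▸ le_sup_right))
    · exact (h2 ⟨x, hz⟩ ⟨y, hz'⟩ (fun k => hne (congrArg Subtype.val k))).2.2.2 e
  · intro x hx hxB y hy hyB e
    have hz := hxU x hx hxB
    have hz' := hxU y hy hyB
    rw [ec x hz, ed x hz, ec y hz', ed y hz'] at e
    by_contra hne
    refine (h2 ⟨x, hz⟩ ⟨y, hz'⟩ (fun k => hne (congrArg Subtype.val k))).1 ?_
    have e1 := (key ⟨x, hz⟩).2.2.2.2.2.1
    have e2 := (key ⟨y, hz'⟩).2.2.2.2.2.1
    exact e1.symm.trans (e.trans e2)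
  · intro x hx hxB a ha e he hae k1 k2
    have hz := hxU x hx hxB
    rw [ec x hz] at k1 k2
    exact hline ⟨x, hz⟩ (X ⟨x, hz⟩) (hoc ⟨x, hz⟩) a ha e he hae k1 k2
  · intro x hx hxB a ha e he hae k1 k2
    have hz := hxU x hx hxB
    rw [ed x hz] at k1 k2
    exact hline ⟨x, hz⟩ (Y ⟨x, hz⟩) (hod ⟨x, hz⟩) a ha e he hae k1 k2
  · intro x hx hxB a ha e he t ht hr k1 k2 k3
    have hz := hxU x hx hxB
    rw [ec x hz, ed x hz] at k1 k2 k3
    obtain ⟨m1, -, -, -, -, m6, m7⟩ := key ⟨x, hz⟩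
    have m6' : x ⊔ (X ⟨x, hz⟩).1 ⊔ (Y ⟨x, hz⟩).1 = x ⊔ (l ⟨x, hz⟩).1 := m6
    rw [m6'] at k1 k2 k3
    rcases hBm a ha with ka | ⟨ka, ka'⟩
    · exact m1 (ka ▸ k1)
    rcases hBm e he with ke | ⟨ke, ke'⟩
    · exact m1 (ke ▸ k2)
    rcases hBm t ht with kt | ⟨kt, kt'⟩
    · exact m1 (kt ▸ k3)
    have h5 : a ⊔ e ⊔ t = x ⊔ (l ⟨x, hz⟩).1 := eq_of_le_of_rk (sup_le (sup_le k1 k2) k3)
      (by rw [hr]; exact m7.le)
    exact hz.2.1 ((le_sup_left : x ≤ x ⊔ (l ⟨x, hz⟩).1).trans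
      (h5 ▸ sup_le (sup_le ka' ke') kt'))

open Classical in
/-- **Row D6.**  If every cone with the numbers of `A` is good, then rank four data exist. -/
theorem crit4_D6 {A : Finset L} (hA : ∀ a ∈ A, IsAtom a) (hr : rk (A.sup id) = 4) {Q : L}
    (hQ : rk Q = 3)
    (hmax : ∀ H, rk H = 3 → (A.filter (· ≤ H)).card ≤ (A.filter (· ≤ Q)).card) {s : ℕ}
    (hs : ∀ g, rk g = 2 → (A.filter (· ≤ g)).card ≤ s)
    (hgood : ∀ (Y U E G P R : Type) [Fintype Y] [Fintype U] [Fintype E]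
      (C : H20SW.Cone Y U E G P R), C.s = s → Fintype.card Y = (A.filter (· ≤ Q)).card →
      C.Good) : Crit4 A := by
  have : Fintype L := Fintype.ofFinite L
  obtain ⟨o, ho, hoQ⟩ := exists_not_le hr (p := Q) (by omega)
  have hn : ∀ x : L, {a | a ∈ A ∧ a ≤ x}.ncard = (A.filter (· ≤ x)).card := by
    intro x
    rw [← Set.ncard_coe_finset]
    congr 1
    ext a
    simp
  have F : Fr A Q o s := ⟨hA, hQ, fun H hH => by rw [hn, hn]; exact hmax H hH, ho, hoQ,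
    fun g hg => by rw [hn]; exact hs g hg⟩
  have fY : Fintype (YY A Q) := Fintype.ofFinite _
  have fU : Fintype (UU A Q o) := Fintype.ofFinite _
  have fE : Fintype (EE A Q) := Fintype.ofFinite _
  -- three points of `Q` not on a line
  have hB : Crit3 (A.filter (· ≤ Q)) := by
    refine Pool.Agent.Helper80.BP.crit3_all _ (fun a ha => hA a (mem_filter.mp ha).1) ?_
    have h1 : (A.filter (· ≤ Q)).sup id ≤ Q := Finset.sup_le fun x hx => (mem_filter.mp hx).2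
    have h2 := rk_mono h1
    by_contra hcon
    have h3 : rk ((A.filter (· ≤ Q)).sup id) ≤ 2 := by omega
    -- a plane with one more point
    have hex : ∀ g : L, rk g ≤ 2 → ∃ g', rk g' = rk g + 1 ∧ g ≤ g' ∧
        (A.filter (· ≤ g)).card + 1 ≤ (A.filter (· ≤ g')).card := by
      intro g hg
      obtain ⟨a, ha, hag⟩ := exists_not_le hr (p := g) (by omega)
      refine ⟨g ⊔ a, rk_sup_atom (hA a ha) hag, le_sup_left, ?_⟩
      have h5 : insert a (A.filter (· ≤ g)) ⊆ A.filter (· ≤ g ⊔ a) := by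
        intro z hz
        rw [mem_insert, mem_filter] at hz
        rw [mem_filter]
        rcases hz with rfl | hz
        · exact ⟨ha, le_sup_right⟩
        · exact ⟨hz.1, hz.2.trans le_sup_left⟩
      have h6 := card_le_card h5
      rw [card_insert_of_notMem (by rw [mem_filter]; exact fun h => hag h.2)] at h6
      exact h6
    have hup : ∀ k : ℕ, ∀ g : L, rk g + k = 3 → 1 ≤ k → ∃ g', rk g' = 3 ∧
        (A.filter (· ≤ g)).card + 1 ≤ (A.filter (· ≤ g')).card := by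
      intro k
      induction k with
      | zero => intro g _ h; omega
      | succ k ih =>
        intro g hg _
        obtain ⟨g', e1, -, e3⟩ := hex g (by omega)
        rcases Nat.eq_zero_or_pos k with h0 | h0
        · exact ⟨g', by omega, e3⟩
        · obtain ⟨g'', f1, f2⟩ := ih g' (by omega) h0
          exact ⟨g'', f1, by omega⟩
    obtain ⟨g', e1, e2⟩ := hup (3 - rk ((A.filter (· ≤ Q)).sup id)) ((A.filter (· ≤ Q)).sup id)
      (by omega) (by omega)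
    have h5 := hmax g' e1
    have h6 : (A.filter (· ≤ Q)).card ≤ (A.filter (· ≤ (A.filter (· ≤ Q)).sup id)).card := by
      refine card_le_card fun x hx => ?_
      rw [mem_filter]
      exact ⟨(mem_filter.mp hx).1, le_sup (f := id) hx⟩
    omega
  refine F.crit4 hB (hgood _ _ _ _ _ _ F.cone rfl ?_)
  rw [← Nat.card_eq_fintype_card, ← hn Q]
  rfl

end Pool.Agent.Helper49.RF
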