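import Pool.Agent.Helper20.SW.Cone
import Pool.Agent.Helper63.HM.Cone
import Pool.Agent.Helper38.Thick.Frame

/-!
# The cone over a largest plane of a set of points of rank four
-/

set_option autoImplicit false
set_option linter.unusedSectionVars false

namespace Pool.Agent.Helper49.RF

open Finset
open Pool.Agent.Helper28.BPack Pool.Agent.Helper61.Motz Pool.Agent.Helper38.Thick
  Pool.Agent.Helper63.HM

variable {L : Type} [Lattice L] [BoundedOrder L] [Finite L] [IsUpperModularLattice L]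

/-- The data of a cone in the lattice. -/
structure Fr (A : Finset L) (Q o : L) (s : ℕ) : Prop where
  at_ : ∀ a ∈ A, IsAtom a
  rQ : rk Q = 3
  max : ∀ H, rk H = 3 → {a | a ∈ A ∧ a ≤ H}.ncard ≤ {a | a ∈ A ∧ a ≤ Q}.ncard
  oA : o ∈ A
  oQ : ¬ o ≤ Q
  line : ∀ g, rk g = 2 → {a | a ∈ A ∧ a ≤ g}.ncard ≤ s

/-- The points of `Q`. -/
abbrev YY (A : Finset L) (Q : L) : Type := {x : L // x ∈ A ∧ x ≤ Q}

/-- The users. -/
abbrev UU (A : Finset L) (Q o : L) : Type := {z : L // z ∈ A ∧ ¬ z ≤ Q ∧ z ≠ o}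

/-- The lines of `Q`. -/
abbrev EE (A : Finset L) (Q : L) : Type :=
  {l : L // rk l = 2 ∧ l ≤ Q ∧ ∃ x ∈ A, ∃ y ∈ A, x ≠ y ∧ x ≤ l ∧ y ≤ l}

section

variable {A : Finset L} {Q o : L} {s : ℕ}

theorem Fr.rl (F : Fr A Q o s) {z y : L} (hz : z ∈ A) (hzQ : ¬ z ≤ Q) (hy : y ∈ A)
    (hyQ : y ≤ Q) : rk (z ⊔ y) = 2 :=
  rk_line (F.at_ z hz) (F.at_ y hy) (fun e => hzQ (e ▸ hyQ))

theorem Fr.rp (F : Fr A Q o s) {z l : L} (hz : z ∈ A) (hzQ : ¬ z ≤ Q) (hl : rk l = 2)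
    (hlQ : l ≤ Q) : rk (z ⊔ l) = 3 := by
  rw [sup_comm, rk_sup_atom (F.at_ z hz) (fun h => hzQ (h.trans hlQ)), hl]

/-- Two lines of `Q` on a plane with a point off `Q`. -/
theorem Fr.pl_line (F : Fr A Q o s) {z l m : L} (hz : z ∈ A) (hzQ : ¬ z ≤ Q) (hl : rk l = 2)
    (hlQ : l ≤ Q) (hm : rk m = 2) (hmQ : m ≤ Q) (hml : m ≤ z ⊔ l) : l = m := by
  by_contra hne
  have h1 : l ⊔ m ≤ Q := sup_le hlQ hmQ
  have h2 : rk (l ⊔ m) ≤ 3 := by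
    have := rk_mono h1
    rw [F.rQ] at this
    exact this
  have h3 : rk l ≤ rk (l ⊔ m) := rk_mono le_sup_left
  have h4 : rk (l ⊔ m) ≠ 2 := by
    intro h
    have e1 : l = l ⊔ m := eq_of_le_of_rk le_sup_left (by rw [h, hl])
    have e2 : m = l ⊔ m := eq_of_le_of_rk le_sup_right (by rw [h, hm])
    exact hne (e1.trans e2.symm)
  have h5 : l ⊔ m = Q := eq_of_le_of_rk h1 (by rw [F.rQ]; omega)
  have h6 : l ⊔ m ≤ z ⊔ l := sup_le le_sup_right hml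
  have h7 : l ⊔ m = z ⊔ l := eq_of_le_of_rk h6 (by rw [h5, F.rQ, F.rp hz hzQ hl hlQ])
  exact hzQ (h5 ▸ h7 ▸ le_sup_left)

/-- A line off `Q` has at most one point of `Q`. -/
theorem Fr.one (F : Fr A Q o s) {g x y : L} (hg : rk g = 2) (hgQ : ¬ g ≤ Q) (hx : x ∈ A)
    (hxQ : x ≤ Q) (hy : y ∈ A) (hyQ : y ≤ Q) (hxg : x ≤ g) (hyg : y ≤ g) : x = y := by
  by_contra hne
  exact hgQ (line_of (F.at_ x hx) (F.at_ y hy) hne hxg hyg hg ▸ sup_le hxQ hyQ)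

open Classical in
/-- The cone. -/
noncomputable def Fr.cone [Fintype (YY A Q)] [Fintype (UU A Q o)] [Fintype (EE A Q)]
    (F : Fr A Q o s) : H20SW.Cone (YY A Q) (UU A Q o) (EE A Q) L L L where
  s := s
  on x l := x.1 ≤ l.1
  pl z l := z.1 ⊔ l.1
  ln z y := z.1 ⊔ y.1
  ray z := z.1 ⊔ o
  ok z l := ¬ o ≤ z.1 ⊔ l.1
  tip z y := y.1 ≤ z.1 ⊔ o
  two := by
    rintro ⟨l, hl, hlQ, x, hx, y, hy, hxy, hxl, hyl⟩
    exact ⟨⟨x, hx, hxl.trans hlQ⟩, ⟨y, hy, hyl.trans hlQ⟩,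
      fun e => hxy (congrArg Subtype.val e), hxl, hyl⟩
  join := by
    rintro ⟨x, hx, hxQ⟩ ⟨y, hy, hyQ⟩ hne
    have hxy : x ≠ y := fun e => hne (Subtype.ext e)
    exact ⟨⟨x ⊔ y, rk_line (F.at_ x hx) (F.at_ y hy) hxy, sup_le hxQ hyQ, x, hx, y, hy, hxy,
      le_sup_left, le_sup_right⟩, le_sup_left, le_sup_right⟩
  uniq := by
    rintro ⟨x, hx, hxQ⟩ ⟨y, hy, hyQ⟩ ⟨l, hl, hlQ, hl'⟩ ⟨m, hm, hmQ, hm'⟩ hne h1 h2 h3 h4
    have hxy : x ≠ y := fun e => hne (Subtype.ext e)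
    exact Subtype.ext (line_two (F.at_ x hx) (F.at_ y hy) hxy h1 h2 hl h3 h4 hm)
  short := by
    rintro ⟨l, hl, hlQ, hl'⟩
    refine le_trans ?_ (F.line l hl)
    rw [← Set.ncard_coe_finset]
    refine Set.ncard_le_ncard_of_injOn Subtype.val ?_ (fun x _ y _ e => Subtype.ext e)
      (Set.toFinite _)
    intro x hx
    rw [Finset.mem_coe, mem_filter] at hx
    exact ⟨x.2.1, hx.2⟩
  pl_line := by
    rintro ⟨z, hz, hzQ, hzo⟩ ⟨w, hw, hwQ, hwo⟩ ⟨l, hl, hlQ, hl'⟩ ⟨m, hm, hmQ, hm'⟩ e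
    refine Subtype.ext (F.pl_line hz hzQ hl hlQ hm hmQ ?_)
    have e' : z ⊔ l = w ⊔ m := e
    rw [e']
    exact le_sup_right
  ln_pt := by
    rintro ⟨z, hz, hzQ, hzo⟩ ⟨w, hw, hwQ, hwo⟩ ⟨x, hx, hxQ⟩ ⟨y, hy, hyQ⟩ e
    have e' : z ⊔ x = w ⊔ y := e
    refine Subtype.ext (F.one (F.rl hz hzQ hx hxQ) (fun h => hzQ (le_sup_left.trans h)) hx hxQ hy
      hyQ le_sup_right ?_)
    rw [e']
    exact le_sup_right
  ok_congr := by
    rintro ⟨z, hz, hzQ, hzo⟩ ⟨w, hw, hwQ, hwo⟩ ⟨l, hl, hlQ, hl'⟩ e h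
    have e' : z ⊔ l = w ⊔ l := e
    exact fun k => h (e' ▸ k)
  ln_pl := by
    rintro ⟨z, hz, hzQ, hzo⟩ ⟨w, hw, hwQ, hwo⟩ ⟨y, hy, hyQ⟩ ⟨l, hl, hlQ, hl'⟩ h e
    have e' : z ⊔ y = w ⊔ y := e
    have h' : y ≤ l := h
    change z ⊔ l = w ⊔ l
    have e1 : ∀ v : L, v ⊔ l = v ⊔ y ⊔ l := fun v => by rw [sup_assoc, sup_eq_right.mpr h']
    rw [e1 z, e1 w, e']
  card_pl := by
    rintro ⟨z, hz, hzQ, hzo⟩ ⟨l, hl, hlQ, hl'⟩ -
    have h1 := F.max (z ⊔ l) (F.rp hz hzQ hl hlQ)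
    have h2 : Fintype.card (YY A Q) = {a | a ∈ A ∧ a ≤ Q}.ncard := by
      rw [← Nat.card_eq_fintype_card]
      rfl
    rw [h2]
    refine le_trans ?_ h1
    set S1 := (univ.filter (fun w : UU A Q o => w.1 ⊔ l = z ⊔ l)).image Subtype.val with hS1
    set S2 := (univ.filter (fun y : YY A Q => y.1 ≤ l)).image Subtype.val with hS2
    have c1 : S1.card = (univ.filter (fun w : UU A Q o => w.1 ⊔ l = z ⊔ l)).card :=
      card_image_of_injective _ Subtype.val_injective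
    have c2 : S2.card = (univ.filter (fun y : YY A Q => y.1 ≤ l)).card :=
      card_image_of_injective _ Subtype.val_injective
    have c3 : Disjoint S1 S2 := by
      rw [disjoint_left]
      intro x hx hx'
      obtain ⟨w, -, rfl⟩ := mem_image.mp hx
      obtain ⟨y, hy, e⟩ := mem_image.mp hx'
      exact w.2.2.1 (e ▸ y.2.2)
    change (univ.filter (fun w : UU A Q o => w.1 ⊔ l = z ⊔ l)).card +
      (univ.filter (fun y : YY A Q => y.1 ≤ l)).card ≤ _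
    rw [← c1, ← c2, ← card_union_of_disjoint c3, ← Set.ncard_coe_finset]
    refine Set.ncard_le_ncard ?_ (Set.toFinite _)
    intro x hx
    rw [Finset.mem_coe, mem_union] at hx
    rcases hx with hx | hx
    · obtain ⟨w, hw, rfl⟩ := mem_image.mp hx
      rw [mem_filter] at hw
      exact ⟨w.2.1, hw.2 ▸ le_sup_left⟩
    · obtain ⟨y, hy, rfl⟩ := mem_image.mp hx
      rw [mem_filter] at hy
      exact ⟨y.2.1, hy.2.trans le_sup_right⟩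
  card_ln := by
    rintro ⟨z, hz, hzQ, hzo⟩ ⟨y, hy, hyQ⟩
    refine le_trans ?_ (F.line (z ⊔ y) (F.rl hz hzQ hy hyQ))
    rw [← Set.ncard_coe_finset]
    refine Set.ncard_le_ncard_of_injOn Subtype.val ?_ (fun x _ y _ e => Subtype.ext e)
      (Set.toFinite _)
    intro w hw
    rw [Finset.mem_coe, mem_filter] at hw
    have e : w.1 ⊔ y = z ⊔ y := hw.2
    exact ⟨w.2.1, e ▸ le_sup_left⟩
  tip_uniq := by
    rintro ⟨z, hz, hzQ, hzo⟩ ⟨x, hx, hxQ⟩ ⟨y, hy, hyQ⟩ h1 h2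
    exact Subtype.ext (F.one (rk_line (F.at_ z hz) (F.at_ o F.oA) hzo)
      (fun h => hzQ (le_sup_left.trans h)) hx hxQ hy hyQ h1 h2)
  tip_bad := by
    rintro ⟨z, hz, hzQ, hzo⟩ ⟨y, hy, hyQ⟩ ⟨l, hl, hlQ, hl'⟩ h1 h2 h3
    have h1' : y ≤ z ⊔ o := h1
    have h2' : y ≤ l := h2
    have e : z ⊔ y = z ⊔ o := line_of (F.at_ z hz) (F.at_ y hy) (fun e => hzQ (e ▸ hyQ))
      le_sup_left h1' (rk_line (F.at_ z hz) (F.at_ o F.oA) hzo)
    apply h3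
    have h4 : o ≤ z ⊔ y := e ▸ le_sup_right
    exact h4.trans (sup_le_sup_left h2' z)
  bad_uniq := by
    rintro ⟨z, hz, hzQ, hzo⟩ ⟨y, hy, hyQ⟩ ⟨l, hl, hlQ, hl'⟩ ⟨m, hm, hmQ, hm'⟩ h1 h2 h3 h4 h5
    have h1' : ¬ y ≤ z ⊔ o := h1
    have h2' : y ≤ l := h2
    have h3' : y ≤ m := h3
    have h4' : o ≤ z ⊔ l := not_not.mp h4
    have h5' : o ≤ z ⊔ m := not_not.mp h5
    have hr : rk (z ⊔ o ⊔ y) = 3 := by
      rw [rk_sup_atom (F.at_ y hy) h1', rk_line (F.at_ z hz) (F.at_ o F.oA) hzo]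
    have e1 : z ⊔ o ⊔ y = z ⊔ l := eq_of_le_of_rk
      (sup_le (sup_le le_sup_left h4') (h2'.trans le_sup_right))
      (by rw [hr, F.rp hz hzQ hl hlQ])
    have e2 : z ⊔ o ⊔ y = z ⊔ m := eq_of_le_of_rk
      (sup_le (sup_le le_sup_left h5') (h3'.trans le_sup_right))
      (by rw [hr, F.rp hz hzQ hm hmQ])
    refine Subtype.ext (F.pl_line hz hzQ hl hlQ hm hmQ ?_)
    rw [← e1, e2]
    exact le_sup_right
  ray_ok := by
    rintro ⟨z, hz, hzQ, hzo⟩ ⟨w, hw, hwQ, hwo⟩ ⟨l, hl, hlQ, hl'⟩ e h k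
    have e' : z ⊔ o = w ⊔ o := e
    have k' : o ≤ w ⊔ l := k
    apply h
    have h1 : z ≤ w ⊔ l := (e' ▸ (le_sup_left : z ≤ z ⊔ o)).trans (sup_le le_sup_left k')
    have h2 : z ⊔ l = w ⊔ l := eq_of_le_of_rk (sup_le h1 le_sup_right)
      (by rw [F.rp hz hzQ hl hlQ, F.rp hw hwQ hl hlQ])
    change o ≤ z ⊔ l
    rw [h2]
    exact k'
  ray_bad := by
    rintro ⟨z, hz, hzQ, hzo⟩ ⟨w, hw, hwQ, hwo⟩ ⟨l, hl, hlQ, hl'⟩ ⟨m, hm, hmQ, hm'⟩ h h1 h2 h3 h4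
    have hne : z ⊔ o ≠ w ⊔ o := h
    have h1' : o ≤ z ⊔ l := not_not.mp h1
    have h2' : o ≤ w ⊔ l := not_not.mp h2
    have h3' : o ≤ z ⊔ m := not_not.mp h3
    have h4' : o ≤ w ⊔ m := not_not.mp h4
    have hro : ∀ k : L, rk k = 2 → k ≤ Q → rk (o ⊔ k) = 3 := fun k hk hkQ => F.rp F.oA F.oQ hk hkQ
    have el : o ⊔ l = z ⊔ l := eq_of_le_of_rk (sup_le h1' le_sup_right)
      (by rw [hro l hl hlQ, F.rp hz hzQ hl hlQ])
    have el' : o ⊔ l = w ⊔ l := eq_of_le_of_rk (sup_le h2' le_sup_right)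
      (by rw [hro l hl hlQ, F.rp hw hwQ hl hlQ])
    have em : o ⊔ m = z ⊔ m := eq_of_le_of_rk (sup_le h3' le_sup_right)
      (by rw [hro m hm hmQ, F.rp hz hzQ hm hmQ])
    have em' : o ⊔ m = w ⊔ m := eq_of_le_of_rk (sup_le h4' le_sup_right)
      (by rw [hro m hm hmQ, F.rp hw hwQ hm hmQ])
    have hw1 : ¬ w ≤ z ⊔ o := by
      intro k
      exact hne (line_two (F.at_ w hw) (F.at_ o F.oA) hwo k le_sup_right
        (rk_line (F.at_ z hz) (F.at_ o F.oA) hzo) le_sup_left le_sup_right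
        (rk_line (F.at_ w hw) (F.at_ o F.oA) hwo))
    have hr : rk (z ⊔ o ⊔ w) = 3 := by
      rw [rk_sup_atom (F.at_ w hw) hw1, rk_line (F.at_ z hz) (F.at_ o F.oA) hzo]
    have e1 : z ⊔ o ⊔ w = o ⊔ l := eq_of_le_of_rk
      (sup_le (sup_le (el ▸ le_sup_left) le_sup_left) (el' ▸ le_sup_left))
      (by rw [hr, hro l hl hlQ])
    have e2 : z ⊔ o ⊔ w = o ⊔ m := eq_of_le_of_rk
      (sup_le (sup_le (em ▸ le_sup_left) le_sup_left) (em' ▸ le_sup_left))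
      (by rw [hr, hro m hm hmQ])
    refine Subtype.ext (F.pl_line F.oA F.oQ hl hlQ hm hmQ ?_)
    rw [← e1, e2]
    exact le_sup_right
  ray_pl := by
    rintro ⟨z, hz, hzQ, hzo⟩ ⟨w, hw, hwQ, hwo⟩ ⟨l, hl, hlQ, hl'⟩ e h e2
    have e' : z ⊔ o = w ⊔ o := e
    have e2' : z ⊔ l = w ⊔ l := e2
    by_contra hne
    have hzw : z ≠ w := fun k => hne (Subtype.ext k)
    have e3 : z ⊔ w = z ⊔ o := line_of (F.at_ z hz) (F.at_ w hw) hzw le_sup_left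
      (e' ▸ le_sup_left) (rk_line (F.at_ z hz) (F.at_ o F.oA) hzo)
    apply h
    have h4 : o ≤ z ⊔ w := e3 ▸ le_sup_right
    exact h4.trans (sup_le le_sup_left (e2' ▸ le_sup_left))
  ray_ln := by
    rintro ⟨z, hz, hzQ, hzo⟩ ⟨w, hw, hwQ, hwo⟩ ⟨y, hy, hyQ⟩ e h e2
    have e' : z ⊔ o = w ⊔ o := e
    have e2' : z ⊔ y = w ⊔ y := e2
    by_contra hne
    have hzw : z ≠ w := fun k => hne (Subtype.ext k)
    have e3 : z ⊔ y = z ⊔ o := line_two (F.at_ z hz) (F.at_ w hw) hzw le_sup_left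
      (e2' ▸ le_sup_left) (F.rl hz hzQ hy hyQ) le_sup_left (e' ▸ le_sup_left)
      (rk_line (F.at_ z hz) (F.at_ o F.oA) hzo)
    apply h
    change y ≤ z ⊔ o
    rw [← e3]
    exact le_sup_right
  two_ln := by
    rintro ⟨z, hz, hzQ, hzo⟩ ⟨w, hw, hwQ, hwo⟩ ⟨x, hx, hxQ⟩ ⟨y, hy, hyQ⟩ hne e e2
    have e' : z ⊔ x = w ⊔ x := e
    have e2' : z ⊔ y = w ⊔ y := e2
    by_contra hzw'
    have hzw : z ≠ w := fun k => hzw' (Subtype.ext k)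
    have e3 : z ⊔ x = z ⊔ y := line_two (F.at_ z hz) (F.at_ w hw) hzw le_sup_left
      (e' ▸ le_sup_left) (F.rl hz hzQ hx hxQ) le_sup_left (e2' ▸ le_sup_left)
      (F.rl hz hzQ hy hyQ)
    refine hne (Subtype.ext (F.one (F.rl hz hzQ hx hxQ) (fun h => hzQ (le_sup_left.trans h)) hx hxQ
      hy hyQ le_sup_right ?_))
    rw [e3]
    exact le_sup_right

end

end Pool.Agent.Helper49.RF
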